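import Pool.Agent.Run7.h316.UN.Def

/-!
# Families of integral vectors which are dominated at a prime, and sets whose closure in `ℤ_p ^ r` has measure zero
-/

set_option autoImplicit false

namespace Pool.Agent.Run7.h316.PN

open Filter Topology
open Pool.Agent.Run7.h316.EQ
open Pool.Agent.Run7.h316.UN (classes_bound)

section

variable {ι : Type} [Fintype ι]

/-- The family of integral vectors `c w`, `w` in `Ω`, is dominated at `p` by `C` along the finite sets `S N`: for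
all `k` the proportion of the `w` in `S N` for which `c w` is in a given class modulo `p ^ k` is at most
`C p ^ (- k r) + o(1)`, `N → ∞`, where `r` is the number of the coordinates. -/
def DominatedBy (C : ℝ) (p : ℕ) {Ω : Type} (S : ℕ → Finset Ω) (c : Ω → ι → ℤ) : Prop :=
  ∀ (k : ℕ) (a : ι → ZMod (p ^ k)) (ε : ℝ), 0 < ε → ∃ N₀ : ℕ, ∀ N : ℕ, N₀ ≤ N →
    (({w : Ω | w ∈ S N ∧ ∀ i, ((c w i : ℤ) : ZMod (p ^ k)) = a i}.ncard : ℕ) : ℝ) ≤
      (C * (((p ^ k : ℕ) : ℝ) ^ Fintype.card ι)⁻¹ + ε) * (S N).card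

/-- The family is dominated at `p` by some number `C`. -/
def DominatedAt (p : ℕ) {Ω : Type} (S : ℕ → Finset Ω) (c : Ω → ι → ℤ) : Prop :=
  ∃ C : ℝ, DominatedBy C p S c

theorem rare_of_pnull {Ω : Type} {S : ℕ → Finset Ω} {c : Ω → ι → ℤ} {p : ℕ} (hp : 0 < p)
    (hc : DominatedAt p S c) {B : Set (ι → ℤ)}
    (hB : ∀ ε : ℝ, 0 < ε → ∃ k : ℕ,
      ((((fun (v : ι → ℤ) (i : ι) => ((v i : ℤ) : ZMod (p ^ k))) '' B).ncard : ℕ) : ℝ) ≤
        ε * ((p ^ k : ℕ) : ℝ) ^ Fintype.card ι) : Rare S c B := by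
  classical
  intro ε hε
  obtain ⟨C, hc⟩ := hc
  set C' : ℝ := max C 1 with hC'
  have hC1 : (1 : ℝ) ≤ C' := le_max_right _ _
  have hCC : C ≤ C' := le_max_left _ _
  obtain ⟨k, hb⟩ := hB (ε / (2 * C')) (by positivity)
  have hq : 0 < p ^ k := Nat.pow_pos hp
  have : NeZero (p ^ k) := ⟨hq.ne'⟩
  have hqr : (0 : ℝ) < ((p ^ k : ℕ) : ℝ) := by exact_mod_cast hq
  set I : Set (ι → ZMod (p ^ k)) := (fun (v : ι → ℤ) (i : ι) => ((v i : ℤ) : ZMod (p ^ k))) '' B
    with hI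
  obtain ⟨N₁, hN₁⟩ := classes_bound hq (hc k) I (ε / 2) (by positivity)
  refine ⟨N₁, fun N hN => ?_⟩
  have h1 := hN₁ N hN
  have hsub : {w : Ω | w ∈ S N ∧ c w ∈ B} ⊆
      {w : Ω | w ∈ S N ∧ (fun i => ((c w i : ℤ) : ZMod (p ^ k))) ∈ I} := by
    rintro w ⟨hw1, hw2⟩
    exact ⟨hw1, c w, hw2, rfl⟩
  have h4 : (({w : Ω | w ∈ S N ∧ c w ∈ B}.ncard : ℕ) : ℝ) ≤
      (({w : Ω | w ∈ S N ∧ (fun i => ((c w i : ℤ) : ZMod (p ^ k))) ∈ I}.ncard : ℕ) : ℝ) := by
    exact_mod_cast Set.ncard_le_ncard hsub ((S N).finite_toSet.subset fun w hw => hw.1)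
  have h5 : (I.ncard : ℝ) * (C * (((p ^ k : ℕ) : ℝ) ^ Fintype.card ι)⁻¹) ≤ ε / 2 := by
    have h6 : (I.ncard : ℝ) * (C * (((p ^ k : ℕ) : ℝ) ^ Fintype.card ι)⁻¹) ≤
        (I.ncard : ℝ) * (C' * (((p ^ k : ℕ) : ℝ) ^ Fintype.card ι)⁻¹) := by gcongr
    refine h6.trans ?_
    have h7 := mul_le_mul_of_nonneg_right hb
      (by positivity : (0 : ℝ) ≤ C' * (((p ^ k : ℕ) : ℝ) ^ Fintype.card ι)⁻¹)
    refine h7.trans (le_of_eq ?_)
    field_simp
  have h8 : (0 : ℝ) ≤ ((S N).card : ℝ) := Nat.cast_nonneg _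
  nlinarith

/-- the number of the solutions of `u y = b` modulo `q` -/
theorem solutions {q : ℕ} [NeZero q] {u : ℤ} (hu : u ≠ 0) (b : ZMod q) :
    {y : ZMod q | (u : ZMod q) * y = b}.ncard ≤ u.natAbs := by
  classical
  have hq : 0 < q := Nat.pos_of_ne_zero (NeZero.ne q)
  have h0 : {y : ZMod q | (u : ZMod q) * y = 0}.ncard ≤ u.natAbs := by
    have h1 : ∀ y : ZMod q, (u : ZMod q) * y = 0 → q ∣ u.natAbs * y.val := by
      intro y hy
      have h2 : ((u * (y.val : ℤ) : ℤ) : ZMod q) = 0 := by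
        push_cast
        rw [ZMod.natCast_zmod_val]
        exact hy
      rw [ZMod.intCast_zmod_eq_zero_iff_dvd] at h2
      have h3 := Int.natCast_dvd.1 h2
      rwa [Int.natAbs_mul, Int.natAbs_natCast] at h3
    have h2 : {y : ZMod q | (u : ZMod q) * y = 0}.ncard ≤
        ((Finset.range u.natAbs : Finset ℕ) : Set ℕ).ncard := by
      refine Set.ncard_le_ncard_of_injOn (fun y => u.natAbs * y.val / q) ?_ ?_
        (Finset.finite_toSet _)
      · intro y _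
        rw [Finset.mem_coe, Finset.mem_range, Nat.div_lt_iff_lt_mul hq]
        exact Nat.mul_lt_mul_of_pos_left (ZMod.val_lt y) (Int.natAbs_pos.2 hu)
      · intro y hy z hz hyz
        have e1 := Nat.div_mul_cancel (h1 y hy)
        have e2 := Nat.div_mul_cancel (h1 z hz)
        have hyz' : u.natAbs * y.val / q = u.natAbs * z.val / q := hyz
        rw [hyz', e2] at e1
        exact ZMod.val_injective q (Nat.eq_of_mul_eq_mul_left (Int.natAbs_pos.2 hu) e1).symm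
    rwa [Set.ncard_coe_finset, Finset.card_range] at h2
  by_cases hne : ∃ y₀ : ZMod q, (u : ZMod q) * y₀ = b
  · obtain ⟨y₀, hy₀⟩ := hne
    refine le_trans (Set.ncard_le_ncard_of_injOn (fun y => y - y₀) ?_ ?_ (Set.toFinite _)) h0
    · intro y hy
      have hy' : (u : ZMod q) * y = b := hy
      show (u : ZMod q) * (y - y₀) = 0
      rw [mul_sub, hy', hy₀, sub_self]
    · intro y _ z _ h
      exact sub_left_inj.1 h
  · have : {y : ZMod q | (u : ZMod q) * y = b} = ∅ := by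
      ext y
      simp only [Set.mem_ofPred_eq, Set.mem_empty_iff_false, iff_false]
      exact fun h => hne ⟨y, h⟩
    rw [this, Set.ncard_empty]
    exact Nat.zero_le _

/-- shifts and multiples -/
theorem dominatedAt_affine {Ω : Type} {S : ℕ → Finset Ω} {c : Ω → ι → ℤ} {p : ℕ} (hp : 0 < p)
    (hc : DominatedAt p S c) (u t : ι → ℤ) (hu : ∀ i, u i ≠ 0) :
    DominatedAt p S (fun w i => u i * c w i + t i) := by
  classical
  obtain ⟨C, hc⟩ := hc
  set C' : ℝ := max C 1 with hC'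
  have hC1 : (1 : ℝ) ≤ C' := le_max_right _ _
  have hCC : C ≤ C' := le_max_left _ _
  set U : ℕ := ∏ i, (u i).natAbs with hU
  refine ⟨U * C', fun k a ε hε => ?_⟩
  have hq : 0 < p ^ k := Nat.pow_pos hp
  have : NeZero (p ^ k) := ⟨hq.ne'⟩
  set I : Set (ι → ZMod (p ^ k)) := {y | ∀ i, ((u i : ℤ) : ZMod (p ^ k)) * y i = a i - (t i : ZMod (p ^ k))}
    with hI
  have hIc : I.ncard ≤ U := by
    have h1 : I = Set.pi Set.univ fun i => {y : ZMod (p ^ k) |
        ((u i : ℤ) : ZMod (p ^ k)) * y = a i - (t i : ZMod (p ^ k))} := by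
      ext y
      simp [hI, Set.mem_pi]
    have h2 : I = ((Fintype.piFinset fun i => (Finset.univ.filter fun y : ZMod (p ^ k) =>
        ((u i : ℤ) : ZMod (p ^ k)) * y = a i - (t i : ZMod (p ^ k))) :
          Finset (ι → ZMod (p ^ k))) : Set (ι → ZMod (p ^ k))) := by
      ext y
      simp [hI]
    rw [h2, Set.ncard_coe_finset, Fintype.card_piFinset]
    refine Finset.prod_le_prod' fun i _ => ?_
    have h3 := solutions (q := p ^ k) (hu i) (a i - (t i : ZMod (p ^ k)))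
    rw [← Set.ncard_coe_finset]
    refine le_trans (le_of_eq ?_) h3
    congr 1
    ext y
    simp
  obtain ⟨N₀, h1⟩ := classes_bound hq (hc k) I ε hε
  refine ⟨N₀, fun N hN => ?_⟩
  have hsub : {w : Ω | w ∈ S N ∧ ∀ i, ((u i * c w i + t i : ℤ) : ZMod (p ^ k)) = a i} ⊆
      {w : Ω | w ∈ S N ∧ (fun i => ((c w i : ℤ) : ZMod (p ^ k))) ∈ I} := by
    rintro w ⟨hw1, hw2⟩
    refine ⟨hw1, fun i => ?_⟩
    have h3 := hw2 i
    push_cast at h3
    rw [← h3]
    ring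
  have h2 : (({w : Ω | w ∈ S N ∧ ∀ i, ((u i * c w i + t i : ℤ) : ZMod (p ^ k)) = a i}.ncard : ℕ) : ℝ) ≤
      (({w : Ω | w ∈ S N ∧ (fun i => ((c w i : ℤ) : ZMod (p ^ k))) ∈ I}.ncard : ℕ) : ℝ) := by
    exact_mod_cast Set.ncard_le_ncard hsub ((S N).finite_toSet.subset fun w hw => hw.1)
  refine h2.trans ((h1 N hN).trans ?_)
  refine mul_le_mul_of_nonneg_right ?_ (Nat.cast_nonneg _)
  have h3 : (I.ncard : ℝ) ≤ U := by exact_mod_cast hIc
  have h4 : (0 : ℝ) ≤ (((p ^ k : ℕ) : ℝ) ^ Fintype.card ι)⁻¹ := by positivity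
  have h5 : (I.ncard : ℝ) * (C * (((p ^ k : ℕ) : ℝ) ^ Fintype.card ι)⁻¹) ≤
      U * (C' * (((p ^ k : ℕ) : ℝ) ^ Fintype.card ι)⁻¹) := by
    calc (I.ncard : ℝ) * (C * (((p ^ k : ℕ) : ℝ) ^ Fintype.card ι)⁻¹)
        ≤ (I.ncard : ℝ) * (C' * (((p ^ k : ℕ) : ℝ) ^ Fintype.card ι)⁻¹) := by gcongr
      _ ≤ U * (C' * (((p ^ k : ℕ) : ℝ) ^ Fintype.card ι)⁻¹) :=
          mul_le_mul_of_nonneg_right h3 (by positivity)
  linarith

/-- the vectors of primes are dominated at all primes -/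
theorem dominatedBy_primes [DecidableEq ι] {p : ℕ} (hp : p.Prime) :
    DominatedBy (40 ^ Fintype.card ι) p (primeBox ι) (id : (ι → ℤ) → ι → ℤ) := by
  classical
  intro k a ε hε
  have hq0 : 0 < p ^ k := Nat.pow_pos hp.pos
  have hφ : (0 : ℝ) < (p ^ k).totient := by exact_mod_cast Nat.totient_pos.2 hq0
  have hqr : (0 : ℝ) < ((p ^ k : ℕ) : ℝ) := by exact_mod_cast hq0
  have hφ2 : ((p ^ k : ℕ) : ℝ) ≤ 2 * ((p ^ k).totient : ℝ) := by
    rcases Nat.eq_zero_or_pos k with hk | hk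
    · rw [hk, pow_zero, Nat.totient_one]
      norm_num
    · rw [Nat.totient_prime_pow hp hk]
      have h1 : p ^ k = p ^ (k - 1) * p := by rw [← pow_succ, Nat.sub_add_cancel hk]
      have h2 : p ^ k ≤ 2 * (p ^ (k - 1) * (p - 1)) := by
        rw [h1]
        have h3 : p ≤ 2 * (p - 1) := by
          have := hp.two_le
          omega
        calc p ^ (k - 1) * p ≤ p ^ (k - 1) * (2 * (p - 1)) := Nat.mul_le_mul_left _ h3
          _ = 2 * (p ^ (k - 1) * (p - 1)) := by ring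
      exact_mod_cast h2
  obtain ⟨H₀, hH₀⟩ := class_upper (p ^ k) hq0
  refine ⟨H₀, fun H hH => ?_⟩
  have h1 : {w : ι → ℤ | w ∈ primeBox ι H ∧ ∀ i, ((id w i : ℤ) : ZMod (p ^ k)) = a i} =
      ((Fintype.piFinset fun i => ((Finset.range (H + 1)).filter
        (fun q : ℕ => q.Prime ∧ ((q : ℕ) : ZMod (p ^ k)) = a i)).map Nat.castEmbedding :
          Finset (ι → ℤ)) : Set (ι → ℤ)) := by
    ext w
    simp only [primeBox, primesTo, Set.mem_ofPred_eq, Fintype.mem_piFinset, Finset.mem_coe,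
      Finset.mem_map, Finset.mem_filter, Finset.mem_range, Nat.castEmbedding_apply, id_eq]
    constructor
    · rintro ⟨h1, h2⟩ i
      obtain ⟨q, hq, hqw⟩ := h1 i
      refine ⟨q, ⟨hq.1, hq.2, ?_⟩, hqw⟩
      have h3 := h2 i
      rw [← hqw] at h3
      simpa using h3
    · intro h
      refine ⟨fun i => ?_, fun i => ?_⟩
      · obtain ⟨q, hq, hqw⟩ := h i
        exact ⟨q, ⟨hq.1, hq.2.1⟩, hqw⟩
      · obtain ⟨q, hq, hqw⟩ := h i
        rw [← hqw, ← hq.2.2]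
        simp
  rw [h1, Set.ncard_coe_finset, Fintype.card_piFinset, Nat.cast_prod]
  have h2 : ∏ i, ((((((Finset.range (H + 1)).filter
      (fun q : ℕ => q.Prime ∧ ((q : ℕ) : ZMod (p ^ k)) = a i)).map Nat.castEmbedding :
        Finset ℤ)).card : ℕ) : ℝ) ≤
        ∏ _i : ι, (20 / ((p ^ k).totient : ℝ) * (primesTo H).card) := by
    refine Finset.prod_le_prod (fun i _ => Nat.cast_nonneg _) fun i _ => ?_
    rw [Finset.card_map]
    exact hH₀ H hH (a i)
  refine h2.trans ?_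
  rw [Finset.prod_const, Finset.card_univ]
  have h3 : ((primeBox ι H).card : ℝ) = ((primesTo H).card : ℝ) ^ Fintype.card ι := by
    unfold primeBox
    rw [Fintype.card_piFinset]
    simp [Finset.card_map]
  rw [h3, mul_pow, add_mul]
  have h4 : (20 / ((p ^ k).totient : ℝ)) ^ Fintype.card ι ≤
      40 ^ Fintype.card ι * (((p ^ k : ℕ) : ℝ) ^ Fintype.card ι)⁻¹ := by
    rw [← div_eq_mul_inv, ← div_pow]
    apply pow_le_pow_left₀ (by positivity)
    rw [div_le_div_iff₀ hφ hqr]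
    linarith
  have h5 : 0 ≤ ((primesTo H).card : ℝ) ^ Fintype.card ι := by positivity
  have h6 := mul_le_mul_of_nonneg_right h4 h5
  have h7 : 0 ≤ ε * ((primesTo H).card : ℝ) ^ Fintype.card ι := by positivity
  linarith

theorem dominatedAt_primes [DecidableEq ι] {p : ℕ} (hp : p.Prime) :
    DominatedAt p (primeBox ι) (id : (ι → ℤ) → ι → ℤ) := ⟨_, dominatedBy_primes hp⟩

end

/-! ### Families -/

section

variable {ι : Type} {Ω : Type} {S : ℕ → Finset Ω} {c : Ω → ι → ℤ}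

theorem rare_empty' : Rare S c (∅ : Set (ι → ℤ)) := by
  intro ε hε
  refine ⟨0, fun N _ => ?_⟩
  simp only [Set.mem_empty_iff_false, and_false]
  rw [show {w : Ω | False} = ∅ from rfl, Set.ncard_empty, Nat.cast_zero]
  positivity

theorem rare_union' {A B : Set (ι → ℤ)} (hA : Rare S c A) (hB : Rare S c B) :
    Rare S c (A ∪ B) := by
  intro ε hε
  obtain ⟨N₁, h1⟩ := hA (ε / 2) (by positivity)
  obtain ⟨N₂, h2⟩ := hB (ε / 2) (by positivity)
  refine ⟨max N₁ N₂, fun N hN => ?_⟩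
  have h3 := h1 N ((le_max_left _ _).trans hN)
  have h4 := h2 N ((le_max_right _ _).trans hN)
  have hsub : {w : Ω | w ∈ S N ∧ c w ∈ A ∪ B} ⊆
      {w : Ω | w ∈ S N ∧ c w ∈ A} ∪ {w : Ω | w ∈ S N ∧ c w ∈ B} := by
    rintro w ⟨hw, hw' | hw'⟩
    · exact Or.inl ⟨hw, hw'⟩
    · exact Or.inr ⟨hw, hw'⟩
  have hf : ∀ P : Ω → Prop, {w : Ω | w ∈ S N ∧ P w}.Finite := fun P =>
    (S N).finite_toSet.subset fun w hw => hw.1
  have h5 := (Set.ncard_le_ncard hsub ((hf _).union (hf _))).trans (Set.ncard_union_le _ _)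
  have h6 : (({w : Ω | w ∈ S N ∧ c w ∈ A ∪ B}.ncard : ℕ) : ℝ) ≤
      (({w : Ω | w ∈ S N ∧ c w ∈ A}.ncard : ℕ) : ℝ) +
      (({w : Ω | w ∈ S N ∧ c w ∈ B}.ncard : ℕ) : ℝ) := by exact_mod_cast h5
  linarith

theorem rare_biUnion' {J : Type} (F : Finset J) {B : J → Set (ι → ℤ)}
    (h : ∀ j ∈ F, Rare S c (B j)) : Rare S c (⋃ j ∈ F, B j) := by
  classical
  induction F using Finset.induction_on with
  | empty => simpa using (rare_empty' (S := S) (c := c))
  | insert a s ha ih =>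
    rw [Finset.set_biUnion_insert]
    exact rare_union' (h a (Finset.mem_insert_self _ _))
      (ih fun j hj => h j (Finset.mem_insert_of_mem hj))

end

/-- a diagonal argument: finitely many of a sequence of sets, more and more of them -/
theorem diagonal {ι : Type} {Ω : Type} {S : ℕ → Finset Ω} {c : Ω → ι → ℤ} (B : ℕ → Set (ι → ℤ))
    (h0 : B 0 = ∅) (hB : ∀ j, Rare S c (B j)) :
    ∃ P : ℕ → ℕ, Tendsto P atTop atTop ∧ ∀ N : ℕ,
      (P N + 1) * {w : Ω | w ∈ S N ∧ c w ∈ B (P N)}.ncard ≤ (S N).card := by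
  classical
  set Q : ℕ → ℕ → Prop := fun N j => (j + 1) * {w : Ω | w ∈ S N ∧ c w ∈ B j}.ncard ≤ (S N).card
    with hQ
  have hQ0 : ∀ N, Q N 0 := by
    intro N
    simp only [hQ, h0, Set.mem_empty_iff_false, and_false]
    rw [show {w : Ω | False} = ∅ from rfl, Set.ncard_empty]
    exact Nat.zero_le _
  have hQe : ∀ j, ∃ N₀ : ℕ, ∀ N : ℕ, N₀ ≤ N → Q N j := by
    intro j
    obtain ⟨N₀, h1⟩ := hB j (1 / ((j + 1 : ℕ) : ℝ)) (by positivity)
    refine ⟨N₀, fun N hN => ?_⟩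
    have h2 := h1 N hN
    have hj : (0 : ℝ) < ((j + 1 : ℕ) : ℝ) := by positivity
    rw [div_mul_eq_mul_div, one_mul, le_div_iff₀ hj] at h2
    have h3 : {w : Ω | w ∈ S N ∧ c w ∈ B j}.ncard * (j + 1) ≤ (S N).card := by exact_mod_cast h2
    rw [mul_comm] at h3
    exact h3
  have hdec : ∀ N, DecidablePred (Q N) := fun N => Classical.decPred _
  refine ⟨fun N => @Nat.findGreatest (Q N) (hdec N) N, ?_, fun N => ?_⟩
  · rw [tendsto_atTop]
    intro j
    obtain ⟨N₀, h1⟩ := hQe j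
    filter_upwards [eventually_ge_atTop (max N₀ j)] with N hN
    exact @Nat.le_findGreatest j (Q N) (hdec N) N ((le_max_right _ _).trans hN)
      (h1 N ((le_max_left _ _).trans hN))
  · exact @Nat.findGreatest_spec 0 (Q N) (hdec N) N (Nat.zero_le N) (hQ0 N)

end Pool.Agent.Run7.h316.PN
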